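import Mathlib

/-!
The group of upper unitriangular matrices over `ZMod p`.
-/

namespace Pool.Agent.Lib.MP_d87a8f_pr.H

theorem fil_mul {d h : ℕ} {R : Type} [CommRing R] {M N : Matrix (Fin d) (Fin d) R}
    (hM : ∀ i j : Fin d, (j : ℕ) ≤ i + h → M i j = if i = j then 1 else 0)
    (hN : ∀ i j : Fin d, (j : ℕ) ≤ i + h → N i j = if i = j then 1 else 0) :
    ∀ i j : Fin d, (j : ℕ) ≤ i + h → (M * N) i j = if i = j then 1 else 0 := by
  intro i j hij
  have h1 : ∀ m, M i m * N m j = (if i = m then 1 else 0) * N m j := by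
    intro m
    by_cases hm : (m : ℕ) ≤ i + h
    · rw [hM i m hm]
    · have h2 : m ≠ j := by rintro rfl; exact hm hij
      rw [hN m j (by omega), if_neg h2, mul_zero, mul_zero]
  rw [Matrix.mul_apply, Finset.sum_congr rfl (fun m _ => h1 m), ← hN i j hij]
  simp

theorem fil_inv {d h : ℕ} {R : Type} [CommRing R] [Finite R]
    {g : Matrix.GeneralLinearGroup (Fin d) R}
    (hg : ∀ i j : Fin d, (j : ℕ) ≤ i + h → g.1 i j = if i = j then 1 else 0) :
    ∀ i j : Fin d, (j : ℕ) ≤ i + h → (g⁻¹).1 i j = if i = j then 1 else 0 := by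
  have hpow : ∀ n : ℕ, ∀ i j : Fin d, (j : ℕ) ≤ i + h →
      (g ^ n).1 i j = if i = j then 1 else 0 := by
    intro n
    induction n with
    | zero => intro i j _; simp [Matrix.one_apply]
    | succ n ih => rw [pow_succ, Units.val_mul]; exact fil_mul ih hg
  have h1 : g⁻¹ = g ^ (orderOf g - 1) := by
    rw [inv_eq_iff_mul_eq_one, ← pow_succ', Nat.sub_add_cancel (orderOf_pos g), pow_orderOf_eq_one]
  rw [h1]
  exact hpow _

/-- The group `H_{p,d}` of `d × d` upper unitriangular matrices over `ZMod p`: the invertible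
matrices with `1` on the diagonal and `0` below it. -/
def UT (d p : ℕ) [Fact p.Prime] : Subgroup (Matrix.GeneralLinearGroup (Fin d) (ZMod p)) where
  carrier := {g | ∀ i j : Fin d, j ≤ i → g.1 i j = if i = j then 1 else 0}
  mul_mem' := fun ha hb i j hij =>
    fil_mul (h := 0) (fun i j hij => ha i j hij) (fun i j hij => hb i j hij) i j hij
  one_mem' := fun i j _ => by simp [Matrix.one_apply]
  inv_mem' := fun ha i j hij => fil_inv (h := 0) (fun i j hij => ha i j hij) i j hij

end Pool.Agent.Lib.MP_d87a8f_pr.H
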