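import Mathlib

/-!
Dimension bound for Weyl pairs: `h` pairs of operators with `x y = ζ y x`, `ζ` a primitive `p`-th
root of unity, need a space of dimension at least `p ^ h`.
-/

namespace Pool.Agent.Lib.MP_d87a8f_pr.H

open Module

theorem sum_finrank_le {V ι : Type*} [AddCommGroup V] [Module ℂ V] [FiniteDimensional ℂ V]
    [Fintype ι] (U : ι → Submodule ℂ V) (hU : iSupIndep U) (W : Submodule ℂ V)
    (hW : ∀ i, U i ≤ W) : ∑ i, finrank ℂ (U i) ≤ finrank ℂ W := by
  classical
  have hinj := hU.dfinsupp_lsum_injective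
  have h1 : finrank ℂ (Π₀ i, U i) = ∑ i, finrank ℂ (U i) :=
    finrank_directSum ℂ (fun i => U i)
  rw [← h1, ← LinearMap.finrank_range_of_inj hinj]
  apply Submodule.finrank_mono
  rw [← Submodule.iSup_eq_range_dfinsupp_lsum]
  exact iSup_le hW

theorem exists_eigen {V : Type*} [AddCommGroup V] [Module ℂ V] [FiniteDimensional ℂ V]
    (f : End ℂ V) (W : Submodule ℂ V) (hW : W ≠ ⊥) (hf : ∀ v ∈ W, f v ∈ W) :
    ∃ (c : ℂ) (v : V), v ∈ W ∧ v ≠ 0 ∧ f v = c • v := by
  have : Nontrivial W := Submodule.nontrivial_iff_ne_bot.mpr hW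
  obtain ⟨c, hc⟩ := End.exists_eigenvalue (f.restrict hf)
  obtain ⟨v, hv⟩ := hc.exists_hasEigenvector
  refine ⟨c, v, v.2, fun h => hv.2 (Subtype.ext h), ?_⟩
  have := congrArg Subtype.val hv.apply_eq_smul
  simpa using this

theorem weyl_dim {V : Type*} [AddCommGroup V] [Module ℂ V] [FiniteDimensional ℂ V]
    {p : ℕ} {ζ : ℂ} (hζ : IsPrimitiveRoot ζ p) (x y : ℕ → End ℂ V)
    (hxi : ∀ m, Function.Injective (x m)) (hyi : ∀ m, Function.Injective (y m)) :
    ∀ (h : ℕ) (W : Submodule ℂ V), W ≠ ⊥ →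
      (∀ m < h, ∀ v ∈ W, x m v ∈ W) → (∀ m < h, ∀ v ∈ W, y m v ∈ W) →
      (∀ m < h, ∀ v ∈ W, x m (y m v) = ζ • y m (x m v)) →
      (∀ m < h, ∀ m' < m, ∀ v, x m (x m' v) = x m' (x m v)) →
      (∀ m < h, ∀ m' < m, ∀ v, x m (y m' v) = y m' (x m v)) →
      p ^ h ≤ finrank ℂ W := by
  intro h
  induction h with
  | zero =>
    intro W hW _ _ _ _ _
    rw [pow_zero]
    exact Submodule.one_le_finrank_iff.mpr hW
  | succ h ih =>
    intro W hW hx hy hr hxx hxy
    obtain ⟨c, v, hvW, hv0, hv⟩ := exists_eigen (x h) W hW (hx h (by omega))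
    have hc : c ≠ 0 := by
      rintro rfl
      exact hv0 (hxi h (by simpa using hv))
    have key : ∀ t : ℕ, ∃ u ∈ W, u ≠ 0 ∧ x h u = (c * ζ ^ t) • u := by
      intro t
      induction t with
      | zero => exact ⟨v, hvW, hv0, by simpa using hv⟩
      | succ t iht =>
        obtain ⟨u, huW, hu0, hu⟩ := iht
        refine ⟨y h u, hy h (by omega) u huW, fun h0 => hu0 (hyi h (by simpa using h0)), ?_⟩
        rw [hr h (by omega) u huW, hu, map_smul, smul_smul]
        congr 1
        ring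
    set U : Fin p → Submodule ℂ V := fun t => W ⊓ (x h).eigenspace (c * ζ ^ (t : ℕ)) with hU
    have hinj : Function.Injective (fun t : Fin p => c * ζ ^ (t : ℕ)) := by
      intro a b hab
      exact Fin.ext (hζ.pow_inj a.2 b.2 (mul_left_cancel₀ hc hab))
    have hind : iSupIndep U :=
      ((End.eigenspaces_iSupIndep (x h)).comp hinj).mono (fun t => inf_le_right)
    have hsum := sum_finrank_le U hind W (fun t => inf_le_left)
    have hU1 : ∀ t, p ^ h ≤ finrank ℂ (U t) := by
      intro t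
      apply ih (U t)
      · obtain ⟨u, huW, hu0, hu⟩ := key t
        rw [Submodule.ne_bot_iff]
        exact ⟨u, ⟨huW, End.mem_eigenspace_iff.mpr hu⟩, hu0⟩
      · intro m hm w hw
        refine ⟨hx m (by omega) w hw.1, End.mem_eigenspace_iff.mpr ?_⟩
        rw [hxx h (by omega) m hm, End.mem_eigenspace_iff.mp hw.2, map_smul]
      · intro m hm w hw
        refine ⟨hy m (by omega) w hw.1, End.mem_eigenspace_iff.mpr ?_⟩
        rw [hxy h (by omega) m hm, End.mem_eigenspace_iff.mp hw.2, map_smul]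
      · intro m hm w hw
        exact hr m (by omega) w hw.1
      · intro m hm
        exact hxx m (by omega)
      · intro m hm
        exact hxy m (by omega)
    calc p ^ (h + 1) = ∑ _t : Fin p, p ^ h := by simp [pow_succ, mul_comm]
      _ ≤ ∑ t, finrank ℂ (U t) := Finset.sum_le_sum (fun t _ => hU1 t)
      _ ≤ _ := hsum

/-- Group form: `z` of prime exponent `p`, commuting with all `x m`, `y m`, and
`x m * y m = z * y m * x m`. A representation of dimension below `p ^ h` is trivial on `z`. -/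
theorem rep_kills {G V : Type*} [Group G] [AddCommGroup V] [Module ℂ V] [FiniteDimensional ℂ V]
    (ρ : Representation ℂ G V) {p h : ℕ} (hp : p.Prime) (x y : ℕ → G) (z : G) (hz : z ^ p = 1)
    (hzx : ∀ m < h, z * x m = x m * z) (hzy : ∀ m < h, z * y m = y m * z)
    (hr : ∀ m < h, x m * y m = z * (y m * x m))
    (hxx : ∀ m < h, ∀ m' < m, x m * x m' = x m' * x m)
    (hxy : ∀ m < h, ∀ m' < m, x m * y m' = y m' * x m)
    (hd : finrank ℂ V < p ^ h) : ρ z = 1 := by
  by_contra hne
  have app : ∀ (a b : G) (v : V), ρ a (ρ b v) = ρ (a * b) v := by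
    intro a b v
    rw [map_mul]; rfl
  have inj : ∀ a : G, Function.Injective (ρ a) := by
    intro a u v huv
    have := congrArg (ρ a⁻¹) huv
    simpa [app] using this
  set S : End ℂ V := ∑ t ∈ Finset.range p, ρ z ^ t with hS
  have hS1 : S * (ρ z - 1) = 0 := by
    rw [hS, geom_sum_mul, ← map_pow, hz, map_one, sub_self]
  have hS2 : S * ρ z = ρ z * S := by
    rw [hS, Finset.sum_mul, Finset.mul_sum]
    exact Finset.sum_congr rfl (fun t _ => by rw [← pow_succ, ← pow_succ'])
  have hk : LinearMap.ker S ≠ ⊥ := by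
    intro h0
    apply hne
    ext v
    have h1 : (ρ z - 1) v ∈ LinearMap.ker S := by
      rw [LinearMap.mem_ker, ← End.mul_apply, hS1]; rfl
    rw [h0, Submodule.mem_bot] at h1
    simpa [sub_eq_zero] using h1
  obtain ⟨ζ, v, hvS, hv0, hv⟩ := exists_eigen (ρ z) (LinearMap.ker S) hk (by
    intro v hv
    rw [LinearMap.mem_ker] at hv ⊢
    rw [← End.mul_apply, hS2, End.mul_apply, hv, map_zero])
  have hpow : ∀ t : ℕ, (ρ z ^ t) v = ζ ^ t • v := by
    intro t
    induction t with
    | zero => simp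
    | succ t iht => rw [pow_succ', End.mul_apply, iht, map_smul, hv, smul_smul, ← pow_succ]
  have hζp : ζ ^ p = 1 := by
    have h1 := hpow p
    rw [← map_pow, hz, map_one, End.one_apply] at h1
    have h2 : (ζ ^ p - 1) • v = 0 := by rw [sub_smul, ← h1, one_smul, sub_self]
    exact sub_eq_zero.mp ((smul_eq_zero.mp h2).resolve_right hv0)
  have hζ1 : ζ ≠ 1 := by
    rintro rfl
    have h1 : S v = (p : ℂ) • v := by
      rw [hS, LinearMap.sum_apply, Finset.sum_congr rfl (fun t _ => hpow t)]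
      simp [Nat.cast_smul_eq_nsmul]
    rw [LinearMap.mem_ker.mp hvS] at h1
    rcases smul_eq_zero.mp h1.symm with h2 | h2
    · exact hp.ne_zero (by exact_mod_cast h2)
    · exact hv0 h2
  have : Fact p.Prime := ⟨hp⟩
  have hprim : IsPrimitiveRoot ζ p := by
    have := IsPrimitiveRoot.orderOf ζ
    rwa [orderOf_eq_prime hζp hζ1] at this
  have hcomm : ∀ a : G, z * a = a * z → ∀ w ∈ End.eigenspace (ρ z) ζ,
      ρ a w ∈ End.eigenspace (ρ z) ζ := by
    intro a ha w hw
    rw [End.mem_eigenspace_iff] at hw ⊢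
    rw [app, ha, ← app, hw, map_smul]
  have main := weyl_dim hprim (fun m => ρ (x m)) (fun m => ρ (y m)) (fun m => inj _)
    (fun m => inj _) h (End.eigenspace (ρ z) ζ)
    (by rw [Submodule.ne_bot_iff]; exact ⟨v, End.mem_eigenspace_iff.mpr hv, hv0⟩)
    (fun m hm => hcomm _ (hzx m hm)) (fun m hm => hcomm _ (hzy m hm))
    (fun m hm w hw => by
      have h1 := hcomm _ (hzy m hm) _ (hcomm _ (hzx m hm) w hw)
      rw [End.mem_eigenspace_iff] at h1
      show ρ (x m) (ρ (y m) w) = ζ • ρ (y m) (ρ (x m) w)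
      rw [← h1, app, app, app, hr m hm, mul_assoc])
    (fun m hm m' hm' w => by
      show ρ (x m) (ρ (x m') w) = ρ (x m') (ρ (x m) w)
      rw [app, app, hxx m hm m' hm'])
    (fun m hm m' hm' w => by
      show ρ (x m) (ρ (y m') w) = ρ (y m') (ρ (x m) w)
      rw [app, app, hxy m hm m' hm'])
  have := Submodule.finrank_le (End.eigenspace (ρ z) ζ)
  omega

end Pool.Agent.Lib.MP_d87a8f_pr.H
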