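import Mathlib
import Pool.Agent.Lib.MP_d87a8f_pr.H.Defs
import Pool.Agent.Lib.MP_d87a8f_pr.H.Rep

/-!
The filtration `K h` of the unitriangular group: small representations are trivial on it, and its
index is at most `p ^ (d * h)`.
-/

namespace Pool.Agent.Lib.MP_d87a8f_pr.H

open Matrix

variable {d p : ℕ} [Fact p.Prime]

/-- the matrices whose first `h` diagonals above the main one vanish -/
def K (d p : ℕ) [Fact p.Prime] (h : ℕ) : Subgroup (UT d p) where
  carrier := {g | ∀ i j : Fin d, (j : ℕ) ≤ i + h → g.1.1 i j = if i = j then 1 else 0}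
  mul_mem' := fun ha hb => fil_mul ha hb
  one_mem' := fun i j _ => by simp [Matrix.one_apply]
  inv_mem' := fun ha => fil_inv ha

theorem mem_K {h : ℕ} {g : UT d p} : g ∈ K d p h ↔
    ∀ i j : Fin d, (j : ℕ) ≤ i + h → g.1.1 i j = if i = j then 1 else 0 := Iff.rfl

theorem ut_ext {a b : UT d p} (h : a.1.1 = b.1.1) : a = b := Subtype.ext (Units.ext h)

theorem ut_mul (a b : UT d p) : (a * b).1.1 = a.1.1 * b.1.1 := rfl

theorem ut_low (a : UT d p) (i j : Fin d) (h : j ≤ i) : a.1.1 i j = if i = j then 1 else 0 :=
  a.2 i j h

/-- elementary matrices -/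
def E (i j : Fin d) (a : ZMod p) : UT d p :=
  if h : i < j then
    ⟨⟨transvection i j a, transvection i j (-a),
      by rw [transvection_mul_transvection_same _ _ h.ne]; simp,
      by rw [transvection_mul_transvection_same _ _ h.ne]; simp⟩, by
      intro u v huv
      have h2 : ¬ (i = u ∧ j = v) := by
        rintro ⟨rfl, rfl⟩
        exact absurd h (not_lt.mpr huv)
      show transvection i j a u v = _
      rw [transvection, Matrix.add_apply, single_apply_of_ne _ _ _ _ _ h2, add_zero,
        Matrix.one_apply]⟩
  else 1

theorem E_val {i j : Fin d} (h : i < j) (a : ZMod p) :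
    (E i j a : UT d p).1.1 = transvection i j a := by
  rw [E, dif_pos h]

theorem E_comm {i j k l : Fin d} (h1 : i < j) (h2 : k < l) (hjk : j ≠ k) (hli : l ≠ i)
    (a b : ZMod p) : (E i j a : UT d p) * E k l b = E k l b * E i j a := by
  apply ut_ext
  rw [ut_mul, ut_mul, E_val h1, E_val h2]
  simp only [transvection, Matrix.add_mul, Matrix.mul_add, Matrix.one_mul, Matrix.mul_one,
    single_mul_single_of_ne _ _ _ _ hjk, single_mul_single_of_ne _ _ _ _ hli]
  abel

theorem E_rel {i u j : Fin d} (h1 : i < u) (h2 : u < j) (a : ZMod p) :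
    (E i u a : UT d p) * E u j 1 = E i j a * (E u j 1 * E i u a) := by
  have h3 := h1.trans h2
  apply ut_ext
  rw [ut_mul, ut_mul, ut_mul, E_val h1, E_val h2, E_val h3]
  simp only [transvection, Matrix.add_mul, Matrix.mul_add, Matrix.one_mul,
    single_mul_single_of_ne _ _ _ _ h3.ne', single_mul_single_of_ne _ _ _ _ h2.ne',
    single_mul_single_same, mul_one, Matrix.mul_zero]
  abel

theorem E_pow {i j : Fin d} (h : i < j) (a : ZMod p) (n : ℕ) :
    (E i j a : UT d p) ^ n = E i j ((n : ZMod p) * a) := by
  induction n with
  | zero => apply ut_ext; rw [E_val h]; simp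
  | succ n ih =>
    apply ut_ext
    rw [pow_succ, ih, ut_mul, E_val h, E_val h, E_val h,
      transvection_mul_transvection_same _ _ h.ne]
    congr 1
    push_cast
    ring

theorem kills_E {V : Type*} [AddCommGroup V] [Module ℂ V] [FiniteDimensional ℂ V]
    (ρ : Representation ℂ (UT d p) V) {h : ℕ} (hd : Module.finrank ℂ V < p ^ h)
    (i j : Fin d) (hij : (i : ℕ) + h < j) (a : ZMod p) : ρ (E i j a) = 1 := by
  have hlt : i < j := by rw [Fin.lt_def]; omega
  set u : ℕ → Fin d := fun m => if hm : (i : ℕ) + 1 + m < d then ⟨i + 1 + m, hm⟩ else i with hu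
  have hval : ∀ m < h, (u m : ℕ) = i + 1 + m := by
    intro m hm
    have : (i : ℕ) + 1 + m < d := by have := j.2; omega
    simp only [hu, dif_pos this]
  have h1 : ∀ m < h, i < u m := fun m hm => by rw [Fin.lt_def, hval m hm]; omega
  have h2 : ∀ m < h, u m < j := fun m hm => by rw [Fin.lt_def, hval m hm]; omega
  refine rep_kills ρ (Fact.out : p.Prime) (fun m => E i (u m) a) (fun m => E (u m) j 1) _ ?_
    (fun m hm => E_comm hlt (h1 m hm) hlt.ne' (h1 m hm).ne' _ _)
    (fun m hm => E_comm hlt (h2 m hm) (h2 m hm).ne' hlt.ne' _ _)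
    (fun m hm => E_rel (h1 m hm) (h2 m hm) a)
    (fun m hm m' hm' => E_comm (h1 m hm) (h1 m' (by omega)) (h1 m hm).ne'
      (h1 m' (by omega)).ne' _ _)
    (fun m hm m' hm' => E_comm (h1 m hm) (h2 m' (by omega)) ?_ hlt.ne' _ _) hd
  · rw [E_pow hlt]
    apply ut_ext
    rw [E_val hlt]
    simp
  · intro he
    have := congrArg Fin.val he
    rw [hval m hm, hval m' (by omega)] at this
    omega

/-- a subgroup with all far elementary matrices contains `K h` -/
theorem K_le {h : ℕ} (N : Subgroup (UT d p))
    (hN : ∀ i j : Fin d, (i : ℕ) + h < j → ∀ a, E i j a ∈ N) : K d p h ≤ N := by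
  classical
  have key : ∀ (n : ℕ) (g : UT d p), g ∈ K d p h →
      (Finset.univ.filter (fun q : Fin d × Fin d => q.1 < q.2 ∧ g.1.1 q.1 q.2 ≠ 0)).card = n →
      g ∈ N := by
    intro n
    induction n with
    | zero =>
      intro g _ hc
      have h1 : g = 1 := by
        apply ut_ext
        ext i j
        rcases le_or_gt j i with hji | hji
        · rw [ut_low g i j hji]; simp [Matrix.one_apply]
        · have h2 := Finset.card_eq_zero.mp hc
          rw [Finset.filter_eq_empty_iff] at h2
          have h3 := h2 (Finset.mem_univ (i, j))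
          have h4 : g.1.1 i j = 0 := by
            by_contra h5
            exact h3 ⟨hji, h5⟩
          rw [h4]
          simp [hji.ne]
      rw [h1]; exact N.one_mem
    | succ n ih =>
      intro g hg hc
      set S := Finset.univ.filter (fun q : Fin d × Fin d => q.1 < q.2 ∧ g.1.1 q.1 q.2 ≠ 0) with hS
      have hne : S.Nonempty := Finset.card_pos.mp (by omega)
      obtain ⟨⟨i, j⟩, hq, hmax⟩ := S.exists_max_image (fun q => q.2) hne
      have hq' := (Finset.mem_filter.mp hq).2
      have hij : i < j := hq'.1
      have hfar : (i : ℕ) + h < j := by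
        by_contra hcon
        have := mem_K.mp hg i j (by omega)
        rw [if_neg hij.ne] at this
        exact hq'.2 this
      have hrow : ∀ m, g.1.1 j m = if j = m then 1 else 0 := by
        intro m
        rcases le_or_gt m j with hm | hm
        · exact ut_low g j m hm
        · rw [if_neg hm.ne]
          by_contra h5
          have := hmax (j, m) (Finset.mem_filter.mpr ⟨Finset.mem_univ _, hm, h5⟩)
          exact absurd hm (not_lt.mpr this)
      set a := g.1.1 i j with ha
      set g' : UT d p := E i j (-a) * g with hg'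
      have hent : ∀ u v, g'.1.1 u v = if u = i ∧ v = j then 0 else g.1.1 u v := by
        intro u v
        rw [hg', ut_mul, E_val hij]
        by_cases hu : u = i
        · subst hu
          rw [transvection_mul_apply_same, hrow v]
          by_cases hv : v = j
          · subst hv; simp [ha]
          · simp [hv, Ne.symm hv]
        · rw [transvection_mul_apply_of_ne _ _ _ _ hu]
          simp [hu]
      have hK : g' ∈ K d p h := by
        rw [mem_K]
        intro u v huv
        rw [hent, if_neg, mem_K.mp hg u v huv]
        rintro ⟨rfl, rfl⟩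
        omega
      have hcard : Finset.univ.filter
          (fun q : Fin d × Fin d => q.1 < q.2 ∧ g'.1.1 q.1 q.2 ≠ 0) = S.erase (i, j) := by
        ext ⟨u, v⟩
        simp only [hS, Finset.mem_filter, Finset.mem_univ, true_and, Finset.mem_erase, hent,
          Ne, Prod.mk.injEq]
        by_cases hc : u = i ∧ v = j
        · simp [hc]
        · simp [hc]
      have h6 := ih g' hK (by rw [hcard, Finset.card_erase_of_mem hq, hc]; rfl)
      have h7 : g = (E i j (-a))⁻¹ * g' := by rw [hg', inv_mul_cancel_left]
      rw [h7]
      exact N.mul_mem (N.inv_mem (hN i j hfar _)) h6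
  intro g hg
  exact key _ g hg rfl

/-- every representation of dimension below `p ^ h` is trivial on `K h` -/
theorem kills_K {V : Type*} [AddCommGroup V] [Module ℂ V] [FiniteDimensional ℂ V]
    (ρ : Representation ℂ (UT d p) V) {h : ℕ} (hd : Module.finrank ℂ V < p ^ h) :
    ∀ g ∈ K d p h, ρ g = 1 := by
  intro g hg
  have := K_le (h := h) (ρ.toHomUnits.ker) (fun i j hij a => by
    rw [MonoidHom.mem_ker]
    exact Units.ext (kills_E ρ hd i j hij a)) hg
  rw [MonoidHom.mem_ker] at this
  exact congrArg Units.val this

theorem same_coset {h : ℕ} (a b : UT d p)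
    (hab : ∀ i j : Fin d, i < j → (j : ℕ) ≤ i + h → a.1.1 i j = b.1.1 i j) :
    a⁻¹ * b ∈ K d p h := by
  set u := a⁻¹ * b with hu
  have hb : b = a * u := by rw [hu, mul_inv_cancel_left]
  have key : ∀ s : ℕ, s ≤ h → ∀ i j : Fin d, (j : ℕ) ≤ i + s →
      u.1.1 i j = if i = j then 1 else 0 := by
    intro s
    induction s with
    | zero => intro _ i j hij; exact ut_low u i j hij
    | succ s ih =>
      intro hs i j hij
      rcases le_or_gt j i with hji | hji
      · exact ut_low u i j hji
      · have h1 := hab i j hji (by omega)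
        have h2 : ∀ m, a.1.1 i m * u.1.1 m j =
            (if m = i then u.1.1 i j else 0) + (if m = j then a.1.1 i j else 0) := by
          intro m
          rcases lt_trichotomy m i with hm | hm | hm
          · rw [ut_low a i m hm.le, if_neg hm.ne', if_neg hm.ne, if_neg (hm.trans hji).ne]
            simp
          · subst hm
            rw [ut_low a m m le_rfl, if_pos rfl, if_pos rfl, if_neg hji.ne]
            simp
          · have hm' : (i : ℕ) < m := hm
            rw [ih (by omega) m j (by omega), if_neg hm.ne']
            by_cases hmj : m = j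
            · subst hmj; simp
            · simp [hmj]
        rw [hb, ut_mul, Matrix.mul_apply, Finset.sum_congr rfl (fun m _ => h2 m),
          Finset.sum_add_distrib] at h1
        simp only [Finset.sum_ite_eq', Finset.mem_univ, if_true] at h1
        rw [if_neg hji.ne]
        simpa using h1
  exact key h le_rfl

theorem index_K (h : ℕ) : (K d p h).index ≤ p ^ (d * h) := by
  classical
  set f : UT d p → (Fin d × Fin h → ZMod p) := fun g q =>
    if hq : (q.1 : ℕ) + 1 + q.2 < d then g.1.1 q.1 ⟨q.1 + 1 + q.2, hq⟩ else 0 with hf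
  have hinj : Function.Injective (fun c : UT d p ⧸ K d p h => f c.out) := by
    intro c c' hc
    rw [← c.out_eq, ← c'.out_eq]
    apply QuotientGroup.eq.mpr
    apply same_coset
    intro i j hij hj
    have hij' : (i : ℕ) < j := hij
    have h1 := congrFun hc (i, ⟨j - i - 1, by omega⟩)
    have h2 : (i : ℕ) + 1 + (j - i - 1) < d := by have := j.2; omega
    have h3 : (⟨i + 1 + (j - i - 1), h2⟩ : Fin d) = j := Fin.ext (by simp only; omega)
    simp only [hf, dif_pos h2, h3] at h1
    exact h1
  have := Nat.card_le_card_of_injective _ hinj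
  rw [Nat.card_fun, Nat.card_zmod] at this
  simpa [Subgroup.index] using this

theorem commutator_le_K : commutator (UT d p) ≤ K d p 1 := by
  intro g hg
  rw [mem_K]
  intro i j hij
  rcases le_or_gt j i with hji | hji
  · exact ut_low g i j hji
  · have hji' : (i : ℕ) < j := hji
    let φ : UT d p →* Multiplicative (ZMod p) := MonoidHom.mk'
      (fun a => Multiplicative.ofAdd (a.1.1 i j)) (by
        intro a b
        rw [← ofAdd_add, ut_mul, Matrix.mul_apply]
        congr 1
        have h2 : ∀ m, a.1.1 i m * b.1.1 m j =
            (if m = j then a.1.1 i j else 0) + (if m = i then b.1.1 i j else 0) := by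
          intro m
          rcases lt_trichotomy m i with hm | hm | hm
          · rw [ut_low a i m hm.le, if_neg hm.ne', if_neg hm.ne, if_neg (hm.trans hji).ne]
            simp
          · subst hm
            rw [ut_low a m m le_rfl, if_pos rfl, if_pos rfl, if_neg hji.ne]
            simp
          · have hm' : (i : ℕ) < m := hm
            rw [ut_low b m j (by rw [Fin.le_def]; omega), if_neg hm.ne']
            by_cases hmj : m = j
            · subst hmj; simp
            · simp [hmj]
        rw [Finset.sum_congr rfl (fun m _ => h2 m), Finset.sum_add_distrib]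
        simp)
    have h1 : φ g = 1 := Abelianization.commutator_subset_ker φ hg
    rw [if_neg hji.ne]
    exact h1

theorem index_K_one : (K d p 1).index ≤ Nat.card (Abelianization (UT d p)) :=
  Subgroup.index_antitone commutator_le_K

theorem card_UT_ge : p ^ (d.choose 2) ≤ Nat.card (UT d p) := by
  classical
  let M : ({q : Fin d × Fin d // q.1 < q.2} → ZMod p) → Matrix (Fin d) (Fin d) (ZMod p) :=
    fun c => Matrix.of fun i j => if h : i < j then c ⟨(i, j), h⟩ else if i = j then 1 else 0
  have hlow : ∀ c (i j : Fin d), j ≤ i → M c i j = if i = j then 1 else 0 := by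
    intro c i j hij
    simp only [M, Matrix.of_apply, dif_neg (not_lt.mpr hij)]
  have hdet : ∀ c, (M c).det ≠ 0 := by
    intro c
    rw [Matrix.det_of_isUpperTriangular (fun i j hij => by
      have hij' : j < i := hij
      rw [hlow c i j hij'.le, if_neg hij'.ne'])]
    rw [Finset.prod_congr rfl (fun i _ => hlow c i i le_rfl)]
    simp
  let F : ({q : Fin d × Fin d // q.1 < q.2} → ZMod p) → UT d p :=
    fun c => ⟨Matrix.GeneralLinearGroup.mkOfDetNeZero (M c) (hdet c), hlow c⟩
  have hinj : Function.Injective F := by
    intro c c' hc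
    funext ⟨⟨i, j⟩, hij⟩
    have h1 : M c i j = M c' i j := congrArg (fun g : UT d p => g.1.1 i j) hc
    simpa only [M, Matrix.of_apply, dif_pos hij] using h1
  have := Nat.card_le_card_of_injective _ hinj
  rw [Nat.card_fun, Nat.card_zmod, Nat.card_eq_fintype_card, Fintype.card_subtype,
    Fintype.card_product_filter_lt, Fintype.card_fin] at this
  exact this

end Pool.Agent.Lib.MP_d87a8f_pr.H
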