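import Mathlib
import Pool.Agent.Lib.MP_d87a8f_pr.H.Group
import Pool.Agent.Lib.MP_d87a8f_pr.Q.Main

/-!
The conjectured time is the cutoff time for all groups of unitriangular matrices.
-/

namespace Pool.Agent.Lib.MP_d87a8f_pr.H

open Filter Topology Pool.Agent.Lib.MP_d87a8f_pr.Q

theorem lowDim_le_K (d p : ℕ) [Fact p.Prime] [Fintype (UT d p)] (h : ℕ) :
    lowDim (UT d p) (p ^ h - 1) ≤ (K d p h).index := by
  apply lowDim_le_index
  intro e ρ he x hx
  have hp : 0 < p ^ h := pow_pos (Fact.out : p.Prime).pos h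
  have h1 := kills_K ((Matrix.toLinAlgEquiv' (R := ℂ) (n := Fin e)).toMonoidHom.comp ρ) (h := h)
    (by rw [Module.finrank_fin_fun]; omega) x hx
  exact (Matrix.toLinAlgEquiv' (R := ℂ) (n := Fin e)).injective (h1.trans (map_one _).symm)

theorem sq_le_choose (d : ℕ) : d ^ 2 ≤ 4 * d.choose 2 + 1 := by
  induction d with
  | zero => simp
  | succ d ih =>
    rw [Nat.choose_succ_succ' d 1, Nat.choose_one_right]
    rcases Nat.eq_zero_or_pos d with h | h
    · subst h; simp
    · nlinarith

theorem heis_fin (d p : ℕ) [Fact p.Prime] [Fintype (UT d p)] (x : ℝ)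
    (hL : 1 ≤ Real.log (Fintype.card (UT d p))) (hx : 1 ≤ x) :
    ∃ D : ℕ, 1 ≤ D ∧ Real.log (Fintype.card (UT d p)) / D ≤ x ^ 4 ∧
      Real.log (lowDim (UT d p) D) ≤ Real.log (Nat.card (Abelianization (UT d p))) +
        16 * (Real.log (Fintype.card (UT d p)) / x) := by
  set L := Real.log (Fintype.card (UT d p)) with hLdef
  have hp : p.Prime := Fact.out
  have hp2 : 2 ≤ p := hp.two_le
  have hx4 : 1 ≤ x ^ 4 := one_le_pow₀ hx
  have hmono : ∀ a b : ℕ, a ≤ b → Real.log a ≤ Real.log b := by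
    intro a b hab
    rcases Nat.eq_zero_or_pos a with h0 | h0
    · rw [h0, Nat.cast_zero, Real.log_zero]; exact Real.log_natCast_nonneg _
    · exact Real.log_le_log (by exact_mod_cast h0) (by exact_mod_cast hab)
  have hq : 0 ≤ L / x := by positivity
  have hone : Real.log (lowDim (UT d p) (p ^ 1 - 1)) ≤
      Real.log (Nat.card (Abelianization (UT d p))) + 16 * (L / x) := by
    have := hmono _ _ ((lowDim_le_K d p 1).trans index_K_one)
    linarith
  have hD1 : 1 ≤ p ^ 1 - 1 := by rw [pow_one]; omega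
  by_cases hA : L ≤ x ^ 4 * ((p ^ 1 - 1 : ℕ) : ℝ)
  · refine ⟨p ^ 1 - 1, hD1, ?_, hone⟩
    rw [div_le_iff₀ (by exact_mod_cast hD1)]
    exact hA
  · push Not at hA
    have hD1' : (1 : ℝ) ≤ ((p ^ 1 - 1 : ℕ) : ℝ) := by exact_mod_cast hD1
    have hxL : x ^ 4 ≤ L := by nlinarith
    have hpL : (p : ℝ) ≤ L + 1 := by
      have h1 : ((p ^ 1 - 1 : ℕ) : ℝ) = p - 1 := by
        rw [pow_one, Nat.cast_sub hp.one_le, Nat.cast_one]
      nlinarith
    have hp1 : (1 : ℝ) < p := by exact_mod_cast hp.one_lt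
    obtain ⟨h, hh1, hh2⟩ := exists_nat_pow_near (show (1 : ℝ) ≤ L + 1 by linarith) hp1
    have hpos : 0 < p ^ (h + 1) := pow_pos hp.pos _
    have hDc : ((p ^ (h + 1) - 1 : ℕ) : ℝ) = (p : ℝ) ^ (h + 1) - 1 := by
      rw [Nat.cast_sub hpos, Nat.cast_pow, Nat.cast_one]
    have hDL : L ≤ ((p ^ (h + 1) - 1 : ℕ) : ℝ) := by rw [hDc]; linarith
    refine ⟨p ^ (h + 1) - 1, ?_, ?_, ?_⟩
    · exact_mod_cast hL.trans hDL
    · exact ((div_le_one (by linarith)).mpr hDL).trans hx4
    · set u := Real.log (L + 1) with hu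
      have hu0 : 0 ≤ u := Real.log_nonneg (by linarith)
      have h1 := hmono _ _ ((lowDim_le_K d p (h + 1)).trans (index_K (h + 1)))
      rw [Nat.cast_pow, Real.log_pow] at h1
      have h2 : Real.log p ≤ u := Real.log_le_log (by linarith) hpL
      have h3 : (h : ℝ) * Real.log p ≤ u := by
        rw [← Real.log_pow]
        exact Real.log_le_log (by positivity) hh1
      have h4 : u ^ 4 ≤ 48 * L := by
        have := Real.pow_div_factorial_le_exp u hu0 4
        rw [hu, Real.exp_log (by linarith), ← hu] at this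
        norm_num [Nat.factorial] at this
        linarith
      have h5 : (d : ℝ) ^ 2 ≤ 9 * L := by
        have a1 := hmono _ _ (card_UT_ge (d := d) (p := p))
        rw [Nat.cast_pow, Real.log_pow, Nat.card_eq_fintype_card, ← hLdef] at a1
        have a2 : (1 : ℝ) / 2 ≤ Real.log p := by
          have b1 := Real.log_two_gt_d9
          have b2 : Real.log 2 ≤ Real.log p :=
            Real.log_le_log (by norm_num) (by exact_mod_cast hp2)
          linarith
        have a3 : (d : ℝ) ^ 2 ≤ 4 * (d.choose 2 : ℝ) + 1 := by exact_mod_cast sq_le_choose d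
        have a4 : (0 : ℝ) ≤ (d.choose 2 : ℝ) := Nat.cast_nonneg _
        nlinarith
      have hd0 : (0 : ℝ) ≤ d := Nat.cast_nonneg _
      have h6 : (d : ℝ) * u * x ≤ 8 * L := by
        apply le_of_pow_le_pow_left₀ (n := 4) (by norm_num) (by linarith)
        have a1 : (d : ℝ) ^ 4 ≤ 81 * L ^ 2 := by
          have := mul_le_mul h5 h5 (by positivity) (by linarith)
          nlinarith
        have a2 : (d : ℝ) ^ 4 * u ^ 4 * x ^ 4 ≤ 81 * L ^ 2 * (48 * L) * L :=
          mul_le_mul (mul_le_mul a1 h4 (by positivity) (by positivity)) hxL (by positivity)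
            (by positivity)
        have a3 : 0 ≤ L ^ 4 := by positivity
        calc ((d : ℝ) * u * x) ^ 4 = (d : ℝ) ^ 4 * u ^ 4 * x ^ 4 := by ring
          _ ≤ 81 * L ^ 2 * (48 * L) * L := a2
          _ ≤ (8 * L) ^ 4 := by nlinarith
      have h7 : (d : ℝ) * u ≤ 8 * (L / x) := by
        rw [← mul_div_assoc, le_div_iff₀ (by linarith)]
        exact h6
      have h8 : ((d * (h + 1) : ℕ) : ℝ) * Real.log p ≤ 2 * (d * u) := by
        push_cast
        nlinarith [mul_le_mul_of_nonneg_left h2 hd0, mul_le_mul_of_nonneg_left h3 hd0]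
      have h9 := Real.log_natCast_nonneg (Nat.card (Abelianization (UT d p)))
      linarith

theorem tendsto_aux : Tendsto (fun x : ℝ => Real.log (1 + x ^ 4) / x) atTop (𝓝 0) := by
  have h1 : Tendsto (fun x : ℝ => 1 / x + 4 * (Real.log x / x)) atTop (𝓝 (0 + 4 * 0)) :=
    (tendsto_const_nhds.div_atTop tendsto_id).add
      (Real.isLittleO_log_id_atTop.tendsto_div_nhds_zero.const_mul 4)
  rw [mul_zero, add_zero] at h1
  refine tendsto_of_tendsto_of_tendsto_of_le_of_le' tendsto_const_nhds h1 ?_ ?_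
  · filter_upwards [eventually_ge_atTop (1 : ℝ)] with x hx
    exact div_nonneg (Real.log_nonneg (by nlinarith [one_le_pow₀ (n := 4) hx])) (by linarith)
  · filter_upwards [eventually_ge_atTop (1 : ℝ)] with x hx
    have a1 : 1 ≤ x ^ 4 := one_le_pow₀ hx
    have a2 : Real.log (1 + x ^ 4) ≤ Real.log (2 * x ^ 4) :=
      Real.log_le_log (by linarith) (by linarith)
    rw [Real.log_mul (by norm_num) (by positivity), Real.log_pow] at a2
    have a3 := Real.log_two_lt_d9
    rw [← mul_div_assoc, ← add_div]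
    apply div_le_div_of_nonneg_right _ (by linarith)
    push_cast at a2
    linarith

/-- cutoff at the conjectured time for every sequence of unitriangular groups -/
theorem heis_cutoff (d p : ℕ → ℕ) [∀ n, Fact (p n).Prime] [∀ n, Fintype (UT (d n) (p n))]
    [∀ n, DecidableEq (UT (d n) (p n))] (k : ℕ → ℕ)
    (h1 : Tendsto (fun n => (k n : ℝ) / Real.log (Fintype.card (UT (d n) (p n)))) atTop atTop)
    (h2 : Tendsto (fun n => Real.log (k n) / Real.log (Fintype.card (UT (d n) (p n)))) atTop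
      (𝓝 0)) :
    (∀ᶠ n in atTop, ∃ t : ℝ, 0 ≤ t ∧ (k n : ℝ) * poissonEntropy (t / k n) =
      Real.log (Nat.card (Abelianization (UT (d n) (p n))))) ∧
    ∀ t₀ : ℕ → ℝ, (∀ᶠ n in atTop, 0 ≤ t₀ n ∧ (k n : ℝ) * poissonEntropy (t₀ n / k n) =
        Real.log (Nat.card (Abelianization (UT (d n) (p n))))) →
      CutoffAt (fun n => UT (d n) (p n)) k (fun n => max (t₀ n)
        (Real.log (Fintype.card (UT (d n) (p n))) / Real.log (k n))) := by
  have hk : Tendsto (fun n => (k n : ℝ)) atTop atTop := by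
    rw [tendsto_atTop]
    intro b
    filter_upwards [U.ev_spec (fun n => UT (d n) (p n)) k h1 h2 ⌈b⌉₊ 1] with n hn
    have a1 : ⌈b⌉₊ ≤ k n := by omega
    exact (Nat.le_ceil b).trans (by exact_mod_cast a1)
  have hx : Tendsto (fun n => Real.log (k n)) atTop atTop := Real.tendsto_log_atTop.comp hk
  have hgood : ∀ᶠ n in atTop, 1 ≤ Real.log (Fintype.card (UT (d n) (p n))) ∧
      1 ≤ Real.log (k n) := by
    filter_upwards [hx.eventually_ge_atTop 1, h1.eventually_gt_atTop 0,
      h2.eventually (gt_mem_nhds (show (0 : ℝ) < 1 by norm_num))] with n a1 a2 a3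
    refine ⟨?_, a1⟩
    have a4 := Real.log_natCast_nonneg (Fintype.card (UT (d n) (p n)))
    rcases a4.eq_or_lt with h | h
    · rw [← h, div_zero] at a2
      exact absurd a2 (lt_irrefl _)
    · rw [div_lt_one h] at a3
      linarith
  have hex : ∀ n, ∃ D : ℕ, (1 ≤ Real.log (Fintype.card (UT (d n) (p n))) ∧ 1 ≤ Real.log (k n)) →
      1 ≤ D ∧ Real.log (Fintype.card (UT (d n) (p n))) / D ≤ Real.log (k n) ^ 4 ∧
      Real.log (lowDim (UT (d n) (p n)) D) ≤
        Real.log (Nat.card (Abelianization (UT (d n) (p n)))) +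
          16 * (Real.log (Fintype.card (UT (d n) (p n))) / Real.log (k n)) := by
    intro n
    by_cases h : 1 ≤ Real.log (Fintype.card (UT (d n) (p n))) ∧ 1 ≤ Real.log (k n)
    · obtain ⟨D, hD⟩ := heis_fin (d n) (p n) _ h.1 h.2
      exact ⟨D, fun _ => hD⟩
    · exact ⟨0, fun h' => absurd h' h⟩
  choose D hD using hex
  refine star_cutoff (fun n => UT (d n) (p n)) k h1 h2 D 16
    (hgood.mono fun n hn => (hD n hn).1) ?_ (hgood.mono fun n hn => (hD n hn).2.2)
  refine tendsto_of_tendsto_of_tendsto_of_le_of_le' tendsto_const_nhds (tendsto_aux.comp hx) ?_ ?_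
  · filter_upwards [hgood] with n hn
    have : 0 ≤ Real.log (Fintype.card (UT (d n) (p n))) / D n :=
      div_nonneg (by linarith [hn.1]) (Nat.cast_nonneg _)
    exact div_nonneg (Real.log_nonneg (by linarith)) (by linarith [hn.2])
  · filter_upwards [hgood] with n hn
    have : 0 ≤ Real.log (Fintype.card (UT (d n) (p n))) / D n :=
      div_nonneg (by linarith [hn.1]) (Nat.cast_nonneg _)
    exact div_le_div_of_nonneg_right
      (Real.log_le_log (by linarith) (by linarith [(hD n hn).2.1])) (by linarith [hn.2])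

end Pool.Agent.Lib.MP_d87a8f_pr.H
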